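import Mathlib

/-!
# Divisors and one-cycles on threefolds over finite fields

Fix a prime number `p`. The structures `Three`, `Open`, `Higher` and `Global` are data of divisors and
cycles with rational coefficients on varieties over the finite (or global) fields of characteristic `p`,
and of `ℓ`-adic cycle maps, `ℓ ≠ p`. The known theorems about them that are used are listed in the
structures `IsBasic`, `HasPencils` and `IsKnown`.
-/

set_option autoImplicit false

namespace Pool.Agent.KS6_75.AT

open Module

/-! ### Threefolds -/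

/-- Divisors and one-cycles on the smooth projective geometrically connected threefolds `X` over the
finite fields `k` of characteristic `p`; a member of `V` is a pair of a field `k` and a threefold over
`k`. -/
structure Three where
  /-- the threefolds -/
  V : Type
  /-- `Pic(X) ⊗ ℚ` -/
  Pic : V → Type
  /-- `CH_1(X) ⊗ ℚ`, the one-cycles modulo rational equivalence -/
  CH : V → Type
  [picG : ∀ X, AddCommGroup (Pic X)]
  [picM : ∀ X, Module ℚ (Pic X)]
  [chG : ∀ X, AddCommGroup (CH X)]
  [chM : ∀ X, Module ℚ (CH X)]
  /-- the intersection number `D · z` of a divisor `D` and a one-cycle `z` -/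
  deg : ∀ X, Pic X →ₗ[ℚ] CH X →ₗ[ℚ] ℚ
  /-- `X'` is obtained from `X` by a finite extension of the field of constants. -/
  Ext : V → V → Prop
  /-- the smooth geometrically connected ample surfaces `H ⊂ X`, defined over the field of `X` -/
  Sec : V → Type
  /-- `Pic(H) ⊗ ℚ` -/
  PicS : ∀ X, Sec X → Type
  [picSG : ∀ X H, AddCommGroup (PicS X H)]
  [picSM : ∀ X H, Module ℚ (PicS X H)]
  /-- the class of `H` in `Pic(X) ⊗ ℚ` -/
  cls : ∀ X, Sec X → Pic X
  /-- the restriction `Pic(X) ⊗ ℚ → Pic(H) ⊗ ℚ` -/
  pull : ∀ X (H : Sec X), Pic X →ₗ[ℚ] PicS X H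
  /-- the push-forward `Pic(H) ⊗ ℚ = CH_1(H) ⊗ ℚ → CH_1(X) ⊗ ℚ` -/
  push : ∀ X (H : Sec X), PicS X H →ₗ[ℚ] CH X
  /-- the intersection form of the surface `H` -/
  degS : ∀ X (H : Sec X), PicS X H →ₗ[ℚ] PicS X H →ₗ[ℚ] ℚ

attribute [instance] Three.picG Three.picM Three.chG Three.chM Three.picSG Three.picSM

namespace Three

/-- the intersection number of a divisor and a one-cycle -/
def int (T : Three) {X : T.V} (D : T.Pic X) (z : T.CH X) : ℚ := T.deg X D z

/-- the intersection number on the surface `H` -/
def intS (T : Three) {X : T.V} {H : T.Sec X} (y y' : T.PicS X H) : ℚ := T.degS X H y y'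

/-- the restriction of a divisor to `H` -/
def res (T : Three) {X : T.V} (H : T.Sec X) (D : T.Pic X) : T.PicS X H := T.pull X H D

/-- the image in `X` of a divisor on `H` -/
def inc (T : Three) {X : T.V} {H : T.Sec X} (y : T.PicS X H) : T.CH X := T.push X H y

/-- the restriction to `H` of the class of `H` -/
def ample (T : Three) {X : T.V} (H : T.Sec X) : T.PicS X H := T.res H (T.cls X H)

/-- The numerically trivial one-cycles on a threefold: `D · z = 0` for all divisors `D`. -/
def Num (T : Three) (X : T.V) : Submodule ℚ (T.CH X) where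
  carrier := {z | ∀ D, T.deg X D z = 0}
  add_mem' {a b} ha hb := fun D => by rw [map_add, ha D, hb D, add_zero]
  zero_mem' := fun D => map_zero _
  smul_mem' c a ha := fun D => by rw [map_smul, ha D, smul_zero]

/-- The product with the class of `H`, a map `Pic(X) ⊗ ℚ → CH_1(X) ⊗ ℚ`: restrict the divisor to `H` and
take the image in `X`. -/
def lef (T : Three) (X : T.V) (H : T.Sec X) : T.Pic X →ₗ[ℚ] T.CH X :=
  (T.push X H).comp (T.pull X H)

/-- The surface `H` is **good** if `Pic(X) ⊗ ℚ → Pic(H) ⊗ ℚ` is surjective. -/
def Good (T : Three) {X : T.V} (H : T.Sec X) : Prop := Function.Surjective (T.pull X H)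

/-- **Basic properties of divisors and one-cycles on threefolds over finite fields.** -/
structure IsBasic (T : Three) : Prop where
  /-- the theorem of the base; `Pic⁰(X)` has finitely many points over the finite field -/
  fin : ∀ X, Module.Finite ℚ (T.Pic X)
  /-- the projection formula for `H ⊂ X` -/
  proj : ∀ (X : T.V) (H : T.Sec X) (D : T.Pic X) (y : T.PicS X H),
    T.int D (T.inc y) = T.intS (T.res H D) y
  /-- weak Lefschetz theorem: the restriction of divisors to an ample surface is injective -/
  lefschetz : ∀ (X : T.V) (H : T.Sec X), Function.Injective (T.res H)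
  /-- `H` is ample. -/
  pos : ∀ (X : T.V) (H : T.Sec X), 0 < T.intS (T.ample H) (T.ample H)
  /-- the Hodge index theorem on the surface `H` -/
  hodge : ∀ (X : T.V) (H : T.Sec X) (y : T.PicS X H), T.intS (T.ample H) y = 0 → y ≠ 0 →
    T.intS y y < 0

end Three

/-! ### Pencils -/

/-- A pencil of surfaces on `X`. The smooth members are parametrized by a smooth curve `B` over the field
of `X` (an open part of the line). -/
structure Pencil (ℓ : ℕ) [Fact ℓ.Prime] (T : Three) (X : T.V) where
  /-- the fundamental group of `B` (the arithmetic one) -/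
  Γ : Type
  [grp : Group Γ]
  [top : TopologicalSpace Γ]
  /-- the vanishing cohomology, in `H²(-, ℚ_ℓ(1))` of the geometric generic member -/
  E : Type
  [addE : AddCommGroup E]
  [modE : Module ℚ_[ℓ] E]
  [finE : FiniteDimensional ℚ_[ℓ] E]
  /-- the cup product on `E` -/
  ip : E → E → ℚ_[ℓ]
  /-- the action of the fundamental group -/
  act : Γ → E → E
  /-- the vanishing cycles -/
  Δ : Set E
  /-- the closed points of `B` -/
  Pt : Type
  /-- the Frobenius element at a closed point (up to conjugation) -/
  frob : Pt → Γ
  /-- the threefold `X` over the residue field of the point -/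
  ext : Pt → T.V
  /-- the member of the pencil at the point, a surface on `ext b` -/
  mem : ∀ b, T.Sec (ext b)

attribute [instance] Pencil.grp Pencil.top Pencil.addE Pencil.modE Pencil.finE

variable {ℓ : ℕ} [Fact ℓ.Prime]

section

variable {T : Three} {X : T.V} (P : Pencil ℓ T X)

/-- The cup product is bilinear. -/
def Pencil.IsBilinear : Prop :=
  (∀ x x' y, P.ip (x + x') y = P.ip x y + P.ip x' y) ∧ (∀ (c : ℚ_[ℓ]) x y, P.ip (c • x) y = c * P.ip x y) ∧
    (∀ x y y', P.ip x (y + y') = P.ip x y + P.ip x y') ∧ (∀ (c : ℚ_[ℓ]) x y, P.ip x (c • y) = c * P.ip x y)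

/-- The fundamental group acts by linear maps. -/
def Pencil.IsAction : Prop :=
  (∀ σ x y, P.act σ (x + y) = P.act σ x + P.act σ y) ∧ (∀ σ (c : ℚ_[ℓ]) x, P.act σ (c • x) = c • P.act σ x) ∧
    (∀ x, P.act 1 x = x) ∧ (∀ σ τ x, P.act (σ * τ) x = P.act σ (P.act τ x))

/-- The element `τ` acts as the reflection in the vector `δ`. -/
def Pencil.IsReflection (τ : P.Γ) (δ : P.E) : Prop :=
  ∀ x, P.act τ x = x - (2 * P.ip x δ / P.ip δ δ) • δ

/-- The action of the fundamental group is continuous. -/
def Pencil.IsContinuous : Prop :=
  ∀ (x : P.E) (f : P.E →ₗ[ℚ_[ℓ]] ℚ_[ℓ]), Continuous fun σ => f (P.act σ x)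

/-- The vanishing cycles span the vanishing cohomology. -/
def Pencil.Spans : Prop := Submodule.span ℚ_[ℓ] P.Δ = ⊤

/-- The element `σ` fixes no nonzero vector. -/
def Pencil.NoFixed (σ : P.Γ) : Prop := ∀ x, P.act σ x = x → x = 0

end

/-- **The known properties of a Lefschetz pencil of surfaces on a threefold over a finite field.**

* The cup product is symmetric and nondegenerate on the vanishing cohomology, and invariant (`symm`,
  `nondeg`, `inv`: hard Lefschetz theorem, Deligne); the action is continuous (`cont`).
* The vanishing cycles span `E` (`span`), `⟨δ, δ⟩ = ± 2` (`norm`), and the fundamental group contains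
  elements which act as the reflections in the vanishing cycles (`refl`: the formula of Picard and
  Lefschetz in even relative dimension, [SGA 7, XV, XVIII]).
* `chebotarev`: the conjugates of the Frobenius elements are dense in the fundamental group.
* `lifting`: if `F` has no nonzero fixed vectors on `E`, where `F` is the Frobenius element of the point
  `b`, then `Pic(X_b) ⊗ ℚ → Pic(H_b) ⊗ ℚ` is surjective, `X_b` the threefold over the residue field of `b`
  and `H_b` the member. Indeed `H²(H_b)` is the direct sum of the image of `H²(X_b)` and of `E`. The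
  Frobenius has the same characteristic polynomial on the `ℓ`-adic and on the crystalline cohomology
  (Katz-Messing), so the crystalline classes of the divisors on `H_b` are in the image of `H²(X_b)`, and by
  a theorem of Morrow (the variational Tate conjecture for divisors in crystalline cohomology, for ample
  divisors) the divisors can be lifted to `X_b`, with rational coefficients. -/
structure Pencil.IsLefschetz {T : Three} {X : T.V} (P : Pencil ℓ T X) : Prop where
  isExt : ∀ b, T.Ext X (P.ext b)
  bilinear : P.IsBilinear
  action : P.IsAction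
  symm : ∀ x y, P.ip x y = P.ip y x
  nondeg : ∀ x, (∀ y, P.ip x y = 0) → x = 0
  inv : ∀ σ x y, P.ip (P.act σ x) (P.act σ y) = P.ip x y
  cont : P.IsContinuous
  span : P.Spans
  norm : ∀ δ ∈ P.Δ, P.ip δ δ ≠ 0
  refl : ∀ δ ∈ P.Δ, ∃ τ, P.IsReflection τ δ
  chebotarev : ∀ O : Set P.Γ, IsOpen O → O.Nonempty → ∃ b τ, τ * P.frob b * τ⁻¹ ∈ O
  lifting : ∀ b, P.NoFixed (P.frob b) → T.Good (P.mem b)

variable (ℓ) in
/-- Extensions of the constants, and the existence of Lefschetz pencils. -/
structure Three.HasPencils (T : Three) : Prop where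
  /-- For a finite extension of the constants the pull-back of cycles is injective (transfer), and it
  preserves numerically trivial cycles. -/
  transfer : ∀ X X', T.Ext X X' → ∃ u : T.CH X →ₗ[ℚ] T.CH X', Function.Injective u ∧
    ∀ z ∈ T.Num X, u z ∈ T.Num X'
  trans : ∀ X X' X'', T.Ext X X' → T.Ext X' X'' → T.Ext X X''
  /-- After a finite extension of the constants there are Lefschetz pencils (of smooth ample surfaces of
  sufficiently high degree) [SGA 7, XVII]. -/
  pencil : ∀ X, ∃ X', T.Ext X X' ∧ ∃ P : Pencil ℓ T X', P.IsLefschetz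

/-! ### Smooth affine threefolds -/

/-- One-cycles on the smooth affine threefolds over finite fields of characteristic `p`. -/
structure Open (ℓ : ℕ) [Fact ℓ.Prime] (T : Three) where
  /-- the smooth affine threefolds -/
  Aff : Type
  /-- `CH_1(U) ⊗ ℚ = CH²(U) ⊗ ℚ` -/
  CH : Aff → Type
  [chG : ∀ U, AddCommGroup (CH U)]
  [chM : ∀ U, Module ℚ (CH U)]
  /-- the complement `X ∖ H` -/
  compl : ∀ X, T.Sec X → Aff
  /-- the restriction `CH_1(X) ⊗ ℚ → CH_1(X ∖ H) ⊗ ℚ` -/
  restr : ∀ X (H : T.Sec X), T.CH X →ₗ[ℚ] CH (compl X H)
  /-- the Galois invariants of `H⁴(U_k̄, ℚ_ℓ(2))` -/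
  H4 : Aff → Type
  [h4G : ∀ U, AddCommGroup (H4 U)]
  [h4M : ∀ U, Module ℚ_[ℓ] (H4 U)]
  /-- the cycle class of an element of `CH²(U) ⊗ ℚ` in `H⁴(U_k̄, ℚ_ℓ(2))^G` -/
  cl : ∀ U, CH U → H4 U

attribute [instance] Open.chG Open.chM Open.h4G Open.h4M

/-- **Q1 for the smooth affine threefold `U` and `i = 2`**: the map
`c² : CH²(U) ⊗ ℚ_ℓ → H⁴(U_k̄, ℚ_ℓ(2))^G` is bijective, that is, linearly independent elements of
`CH²(U) ⊗ ℚ` have linearly independent classes over `ℚ_ℓ`, and the classes span. -/
def Open.QOne {T : Three} (O : Open ℓ T) (U : O.Aff) : Prop :=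
  (∀ (n : ℕ) (z : Fin n → O.CH U), LinearIndependent ℚ z →
    LinearIndependent ℚ_[ℓ] fun i => O.cl U (z i)) ∧
  Submodule.span ℚ_[ℓ] (Set.range (O.cl U)) = ⊤

/-- The map `r : CH_1(X) → CH_1(U)` is surjective, and a divisor on `X` which has intersection number zero
with all elements of its kernel is zero. -/
def Open.IsCompactification {T : Three} (O : Open ℓ T) (X : T.V) (U : O.Aff)
    (r : T.CH X →ₗ[ℚ] O.CH U) : Prop :=
  Function.Surjective r ∧ ∀ D, (∀ v, r v = 0 → T.int D v = 0) → D = 0

/-- **Known properties of the smooth affine threefolds.** -/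
structure Open.IsKnown {T : Three} (O : Open ℓ T) : Prop where
  /-- localization: `CH_1(H) → CH_1(X) → CH_1(X ∖ H) → 0` is exact. -/
  exact : ∀ X H z, O.restr X H z = 0 ↔ ∃ y, T.push X H y = z
  onto : ∀ X H, Function.Surjective (O.restr X H)
  /-- A smooth affine threefold `U` has a smooth projective compactification `X` (Cossart-Piltant), and
  the restriction `r : CH_1(X) → CH_1(U)` is surjective; its kernel consists of the cycles on the boundary
  `X ∖ U`. A divisor `D` on `X` which has intersection number zero with all the curves in the boundary is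
  zero in `Pic(X) ⊗ ℚ`: its restrictions to resolutions of the components of the boundary are
  cohomologically trivial, and `H²(X)` is mapped injectively to the cohomology of the boundary since
  `H²_c(U) = 0` by the theorem of Artin. -/
  compact : ∀ U : O.Aff, ∃ X r, O.IsCompactification X U r
  /-- Artin's vanishing theorem: `H⁴(U_k̄, ℚ_ℓ(2)) = 0`. -/
  artin : ∀ U, Subsingleton (O.H4 U)

/-! ### Varieties of any dimension -/

/-- Divisors and one-cycles on the smooth projective varieties of any dimension `n ≥ 3` over finite
fields of characteristic `p`. -/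
structure Higher (ℓ : ℕ) [Fact ℓ.Prime] where
  /-- the varieties -/
  W : Type
  /-- `Pic(Y) ⊗ ℚ` -/
  Pic : W → Type
  /-- `CH_1(Y) ⊗ ℚ = CH^(n-1)(Y) ⊗ ℚ`, `n = dim Y` -/
  CH : W → Type
  [picG : ∀ Y, AddCommGroup (Pic Y)]
  [picM : ∀ Y, Module ℚ (Pic Y)]
  [chG : ∀ Y, AddCommGroup (CH Y)]
  [chM : ∀ Y, Module ℚ (CH Y)]
  /-- the intersection number of a divisor and a one-cycle -/
  deg : ∀ Y, Pic Y →ₗ[ℚ] CH Y →ₗ[ℚ] ℚ
  /-- the Galois invariants of `H^(2n-2)(Y_k̄, ℚ_ℓ(n-1))` -/
  H : W → Type
  [hG : ∀ Y, AddCommGroup (H Y)]
  [hM : ∀ Y, Module ℚ_[ℓ] (H Y)]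
  /-- the cycle class of an element of `CH^(n-1)(Y) ⊗ ℚ` in `H^(2n-2)(Y_k̄, ℚ_ℓ(n-1))^G` -/
  cl : ∀ Y, CH Y → H Y

attribute [instance] Higher.picG Higher.picM Higher.chG Higher.chM Higher.hG Higher.hM

/-- The numerically trivial one-cycles on a variety of any dimension. -/
def Higher.Num (W : Higher ℓ) (Y : W.W) : Submodule ℚ (W.CH Y) where
  carrier := {z | ∀ D, W.deg Y D z = 0}
  add_mem' {a b} ha hb := fun D => by rw [map_add, ha D, hb D, add_zero]
  zero_mem' := fun D => map_zero _
  smul_mem' c a ha := fun D => by rw [map_smul, ha D, smul_zero]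

/-- the intersection number of a divisor and a one-cycle -/
def Higher.int (W : Higher ℓ) {Y : W.W} (D : W.Pic Y) (z : W.CH Y) : ℚ := W.deg Y D z

/-- **Injectivity in Q1 for `Y` and `i = n - 1`**: the map
`c^(n-1) : CH^(n-1)(Y) ⊗ ℚ_ℓ → H^(2n-2)(Y_k̄, ℚ_ℓ(n-1))^G` is injective, that is, linearly independent
elements of `CH^(n-1)(Y) ⊗ ℚ` have linearly independent classes over `ℚ_ℓ`. -/
def Higher.ClInjective (W : Higher ℓ) (Y : W.W) : Prop :=
  ∀ (n : ℕ) (z : Fin n → W.CH Y), LinearIndependent ℚ z →
    LinearIndependent ℚ_[ℓ] fun i => W.cl Y (z i)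

/-- If a linear combination of the classes of one-cycles is zero in the cohomology, then so are the
combinations of their intersection numbers with all divisors. -/
def Higher.Compatible (W : Higher ℓ) (Y : W.W) : Prop :=
  ∀ (n : ℕ) (z : Fin n → W.CH Y) (c : Fin n → ℚ_[ℓ]), ∑ i, c i • W.cl Y (z i) = 0 →
    ∀ D, ∑ i, c i * (W.int D (z i) : ℚ_[ℓ]) = 0

/-- There is an injective linear map from `CH_1(X)` to `CH_1(Y)` which preserves numerically trivial
classes. -/
def Higher.Contains (W : Higher ℓ) (T : Three) (X : T.V) (Y : W.W) : Prop :=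
  ∃ u : T.CH X →ₗ[ℚ] W.CH Y, Function.Injective u ∧ ∀ z ∈ T.Num X, u z ∈ W.Num Y

/-- The class `z` is the image of a class `y` under a linear map `CH_1(X) → CH_1(Y)`, and `y` is
numerically trivial if `z` is. -/
def Higher.Moves (W : Higher ℓ) (T : Three) (X : T.V) {Y : W.W} (z : W.CH Y) : Prop :=
  ∃ (f : T.CH X →ₗ[ℚ] W.CH Y) (y : T.CH X), f y = z ∧ (z ∈ W.Num Y → y ∈ T.Num X)

/-- **Known properties of one-cycles on varieties of any dimension.** -/
structure Higher.IsKnown (T : Three) (W : Higher ℓ) : Prop where
  /-- the theorem of the base; `Pic⁰(Y)` has finitely many points over the finite field -/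
  fin : ∀ Y, Module.Finite ℚ (W.Pic Y)
  /-- The intersection numbers can be computed in the cohomology. -/
  coh : ∀ Y, W.Compatible Y
  /-- Threefolds are varieties. -/
  three : ∀ X : T.V, ∃ Y, W.Contains T X Y
  /-- Moving to threefolds: a one-cycle `z` on `Y` is the push-forward of a one-cycle `y` on a smooth
  projective threefold `X` with a morphism to `Y`, such that `y` is numerically trivial if `z` is. (By
  alterations `s_* z`, `s : Y → Y × P` the inclusion of `Y × point` for a product `P` of projective
  spaces, is rationally equivalent to a combination of disjoint smooth curves; `X` is a smooth complete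
  intersection in `Y × P` which contains these curves, Kleiman-Altman, Poonen; by the theorem of
  Grothendieck and Lefschetz the restriction of divisors from `Y × P` to `X` is an isomorphism, with
  rational coefficients.) -/
  moving : ∀ (Y : W.W) (z : W.CH Y), ∃ X, W.Moves T X z

/-! ### Surfaces over global fields -/

/-- Zero-cycles on surfaces over the global fields of characteristic `p`. -/
structure Global where
  /-- the smooth projective geometrically connected surfaces `S` over global fields `F` -/
  Srf : Type
  /-- `CH_0(S) ⊗ ℚ` -/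
  CH : Srf → Type
  [chG : ∀ S, AddCommGroup (CH S)]
  [chM : ∀ S, Module ℚ (CH S)]
  /-- the Albanese kernel: the classes of degree zero whose image in `Alb(S)(F) ⊗ ℚ` is zero -/
  albKer : ∀ S, Submodule ℚ (CH S)
  /-- the smooth affine surfaces over global fields -/
  ASrf : Type
  /-- `CH_0(S) ⊗ ℚ` of a smooth affine surface -/
  CHA : ASrf → Type
  [chaG : ∀ S, AddCommGroup (CHA S)]
  [chaM : ∀ S, Module ℚ (CHA S)]

attribute [instance] Global.chG Global.chM Global.chaG Global.chaM

/-- The map `r : CH_1(X) → CH_0(S)` is surjective, and if a divisor on `X` has intersection number zero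
with all elements of its kernel then it has intersection number zero with all `z` such that `r z` is in
the Albanese kernel. -/
def Global.IsModel (G : Global) (T : Three) (X : T.V) (S : G.Srf) (r : T.CH X →ₗ[ℚ] G.CH S) : Prop :=
  Function.Surjective r ∧
    ∀ D, (∀ v, r v = 0 → T.int D v = 0) → ∀ z, r z ∈ G.albKer S → T.int D z = 0

/-- **Known relations between surfaces over global fields and threefolds over finite fields.** -/
structure Global.IsKnown {T : Three} (O : Open ℓ T) (G : Global) : Prop where
  /-- Let `S` be a surface over the function field `F` of a curve `B` and let `X → B` be a smooth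
  projective model. The restriction `r : CH_1(X) → CH_0(S)` to the generic fibre is surjective; its kernel
  consists of the vertical cycles. Let `D` be a divisor on `X` which has intersection number zero with all
  vertical cycles. Then the restriction of `D` to `S` is algebraically equivalent to zero (up to torsion),
  and `D · z` is the Neron-Tate height pairing of `D` and of the class of `r z` in the Albanese variety, if
  `r z` is of degree zero (Neron). So `D · z = 0` if `r z` is in the Albanese kernel. -/
  model : ∀ S : G.Srf, ∃ X r, G.IsModel T X S r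
  /-- A smooth affine surface over a global field is the generic fibre of a smooth affine threefold over
  the field of constants. -/
  spread : ∀ S : G.ASrf, ∃ (U : O.Aff) (r : O.CH U →ₗ[ℚ] G.CHA S), Function.Surjective r

/-! ### All together -/

/-- All the data. -/
structure Cycles (ℓ : ℕ) [Fact ℓ.Prime] where
  T : Three
  O : Open ℓ T
  W : Higher ℓ
  G : Global

/-- All the known properties. -/
structure Cycles.IsKnown (C : Cycles ℓ) : Prop where
  basic : C.T.IsBasic
  pencils : C.T.HasPencils ℓ
  isOpen : C.O.IsKnown
  higher : Higher.IsKnown C.T C.W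
  global : Global.IsKnown C.O C.G

end Pool.Agent.KS6_75.AT
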