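import Mathlib

/-!
# Products of reflections without the eigenvalue one

If a group of isometries of a nondegenerate quadratic space contains the reflections in a spanning set
of vectors, then it contains an element which fixes no nonzero vector. If the group is the image of a
continuous representation of the fundamental group of a curve over a finite field, then there is, by
Chebotarev's theorem, a closed point whose Frobenius element has this property.
-/

set_option autoImplicit false

namespace Pool.Agent.KS6_75.AT

open Module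

section algebra

variable {K : Type} [Field K] {E : Type} [AddCommGroup E] [Module K E]

/-- The vectors fixed by an automorphism. -/
def fixed (g : E ≃ₗ[K] E) : Submodule K E := LinearMap.ker ((g : E →ₗ[K] E) - LinearMap.id)

lemma mem_fixed {g : E ≃ₗ[K] E} {x : E} : x ∈ fixed g ↔ g x = x := by
  unfold fixed
  rw [LinearMap.mem_ker, LinearMap.sub_apply, LinearMap.id_apply, sub_eq_zero]
  rfl

/-- A nonzero vector is not orthogonal to a spanning set. -/
lemma exists_not_orthogonal (B : LinearMap.BilinForm K E)
    (hB : ∀ x, (∀ y, B x y = 0) → x = 0) {Δ : Set E} (hΔ : Submodule.span K Δ = ⊤) {x : E}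
    (hx : x ≠ 0) : ∃ δ ∈ Δ, B x δ ≠ 0 := by
  by_contra h
  push Not at h
  refine hx (hB x fun y => ?_)
  have hy : y ∈ Submodule.span K Δ := by rw [hΔ]; exact Submodule.mem_top
  have h1 : Submodule.span K Δ ≤ LinearMap.ker (B x) := Submodule.span_le.2 fun δ hδ => h δ hδ
  exact h1 hy

/-- **Products of reflections without fixed vectors.** A group of isometries of a nondegenerate
quadratic space of finite dimension which contains the reflections in a spanning set of vectors
contains, in each coset `σ H`, `H` the subgroup generated by these reflections, an element without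
nonzero fixed vectors. -/
theorem exists_no_fixed {Γ : Type} [Group Γ] [FiniteDimensional K E] (B : LinearMap.BilinForm K E)
    (hs : ∀ x y, B x y = B y x) (hB : ∀ x, (∀ y, B x y = 0) → x = 0) (ρ : Γ →* (E ≃ₗ[K] E))
    (hρ : ∀ σ x y, B (ρ σ x) (ρ σ y) = B x y) (H : Subgroup Γ) {Δ : Set E}
    (hΔ : Submodule.span K Δ = ⊤)
    (hr : ∀ δ ∈ Δ, ∃ τ ∈ H, ∀ x, ρ τ x = x - (2 * B x δ / B δ δ) • δ) (σ : Γ)
    (h2 : (2 : K) ≠ 0) (hn : ∀ δ ∈ Δ, B δ δ ≠ 0) :
    ∃ τ ∈ H, ∀ x, ρ (σ * τ) x = x → x = 0 := by
  have key : ∀ (n : ℕ) (τ : Γ), τ ∈ H → finrank K (fixed (ρ (σ * τ))) ≤ n →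
      ∃ τ' ∈ H, ∀ x, ρ (σ * τ') x = x → x = 0 := by
    intro n
    induction n with
    | zero =>
      intro τ hτ hn0
      refine ⟨τ, hτ, fun x hx => ?_⟩
      have h1 : fixed (ρ (σ * τ)) = ⊥ := Submodule.finrank_eq_zero.1 (Nat.le_zero.1 hn0)
      have h3 : x ∈ fixed (ρ (σ * τ)) := mem_fixed.2 hx
      rw [h1] at h3
      exact (Submodule.mem_bot K).1 h3
    | succ n ih =>
      intro τ hτ hτn
      by_cases h0 : ∀ x, ρ (σ * τ) x = x → x = 0
      · exact ⟨τ, hτ, h0⟩
      · push Not at h0
        obtain ⟨x, hx, hx0⟩ := h0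
        obtain ⟨δ, hδ, hxδ⟩ := exists_not_orthogonal B hB hΔ hx0
        obtain ⟨s, hs1, hs2⟩ := hr δ hδ
        refine ih (τ * s) (H.mul_mem hτ hs1) ?_
        have hlt : fixed (ρ (σ * (τ * s))) < fixed (ρ (σ * τ)) := by
          have hle : ∀ v, ρ (σ * (τ * s)) v = v → ρ (σ * τ) v = v ∧ B v δ = 0 := by
            intro v hv
            have e1 : ρ (σ * (τ * s)) v = ρ (σ * τ) v - (2 * B v δ / B δ δ) • ρ (σ * τ) δ := by
              rw [← mul_assoc, map_mul, LinearEquiv.mul_apply, hs2 v, map_sub, map_smul]
            rw [e1] at hv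
            have e2 : B (ρ (σ * τ) v - (2 * B v δ / B δ δ) • ρ (σ * τ) δ) x = B v x := by rw [hv]
            have e3 : B (ρ (σ * τ) v) x = B v x := by
              conv_lhs => rw [← hx]
              exact hρ _ _ _
            have e4 : B (ρ (σ * τ) δ) x = B δ x := by
              conv_lhs => rw [← hx]
              exact hρ _ _ _
            rw [map_sub, map_smul, LinearMap.sub_apply, LinearMap.smul_apply, e3, e4,
              smul_eq_mul] at e2
            have e5 : (2 * B v δ / B δ δ) * B δ x = 0 := by linear_combination -e2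
            have e6 : B δ x ≠ 0 := by rw [hs]; exact hxδ
            have e7 : 2 * B v δ / B δ δ = 0 := (mul_eq_zero.1 e5).resolve_right e6
            have e8 : B v δ = 0 := by
              have := (div_eq_zero_iff.1 e7).resolve_right (hn δ hδ)
              exact (mul_eq_zero.1 this).resolve_left h2
            rw [e7, zero_smul, sub_zero] at hv
            exact ⟨hv, e8⟩
          refine lt_of_le_of_ne (fun v hv => mem_fixed.2 (hle v (mem_fixed.1 hv)).1) fun he => ?_
          have hx1 : x ∈ fixed (ρ (σ * (τ * s))) := by rw [he]; exact mem_fixed.2 hx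
          exact hxδ (hle x (mem_fixed.1 hx1)).2
        have := Submodule.finrank_lt_finrank_of_lt hlt
        omega
  exact key _ 1 H.one_mem le_rfl

end algebra

section topology

variable {K : Type} [NontriviallyNormedField K] {E : Type} [AddCommGroup E] [Module K E]
  [FiniteDimensional K E]

/-- The elements which act without fixed vectors form an open set. -/
theorem isOpen_no_fixed {Γ : Type} [Group Γ] [TopologicalSpace Γ] (ρ : Γ →* (E ≃ₗ[K] E))
    (hc : ∀ (x : E) (f : E →ₗ[K] K), Continuous fun σ => f (ρ σ x)) :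
    IsOpen {σ : Γ | ∀ x, ρ σ x = x → x = 0} := by
  classical
  let b := Module.finBasis K E
  let M : Γ → Matrix (Fin (finrank K E)) (Fin (finrank K E)) K := fun σ =>
    LinearMap.toMatrix b b ((ρ σ : E →ₗ[K] E) - LinearMap.id)
  have hM : Continuous M := by
    refine continuous_matrix fun i j => ?_
    have e : (fun σ => M σ i j) = fun σ => b.coord i (ρ σ (b j)) - b.coord i (b j) := by
      funext σ
      change LinearMap.toMatrix b b _ i j = _
      rw [LinearMap.toMatrix_apply, LinearMap.sub_apply, map_sub]
      rfl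
    rw [e]
    exact (hc (b j) (b.coord i)).sub continuous_const
  have hset : {σ : Γ | ∀ x, ρ σ x = x → x = 0} = (fun σ => (M σ).det) ⁻¹' {0}ᶜ := by
    ext σ
    have hdet : (M σ).det = LinearMap.det ((ρ σ : E →ₗ[K] E) - LinearMap.id) :=
      LinearMap.det_toMatrix b _
    have h1 : (M σ).det = 0 ↔ fixed (ρ σ) ≠ ⊥ := by
      rw [hdet]
      exact LinearMap.det_eq_zero_iff_ker_ne_bot
    change (∀ x, ρ σ x = x → x = 0) ↔ (M σ).det ≠ 0
    rw [Ne, h1, not_not, Submodule.eq_bot_iff]
    exact forall_congr' fun x => by rw [mem_fixed]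
  rw [hset]
  exact (isOpen_compl_singleton).preimage hM.matrix_det

end topology

end Pool.Agent.KS6_75.AT
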