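import Mathlib
import Pool.Agent.KS6_75.AT.Defs
import Pool.Agent.KS6_75.AT.Refl

/-!
# One-cycles on threefolds over finite fields: the proofs
-/

set_option autoImplicit false

namespace Pool.Agent.KS6_75.AT

open Module

/-! ### Linear algebra -/

section lin

variable {P M : Type} [AddCommGroup P] [Module ℚ P] [AddCommGroup M] [Module ℚ M]

/-- If `P` is finite dimensional and no `z ≠ 0` is orthogonal to `P`, then all functionals on `M` come
from `P`. -/
lemma finite_of_left_sep [Module.Finite ℚ P] (d : P →ₗ[ℚ] M →ₗ[ℚ] ℚ)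
    (h : ∀ z, (∀ D, d D z = 0) → z = 0) : Module.Finite ℚ M := by
  have hinj : Function.Injective d.flip := by
    rw [← LinearMap.ker_eq_bot, LinearMap.ker_eq_bot']
    intro z hz
    refine h z fun D => ?_
    have := congrArg (fun f => f D) hz
    simpa using this
  exact Module.Finite.of_injective d.flip hinj

lemma functional_surj [Module.Finite ℚ P] (d : P →ₗ[ℚ] M →ₗ[ℚ] ℚ)
    (h : ∀ z, (∀ D, d D z = 0) → z = 0) : Function.Surjective d := by
  have := finite_of_left_sep d h
  have hinj : Function.Injective d.flip := by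
    rw [← LinearMap.ker_eq_bot, LinearMap.ker_eq_bot']
    intro z hz
    refine h z fun D => ?_
    have := congrArg (fun f => f D) hz
    simpa using this
  have h1 : Function.Surjective (Module.Dual.transpose (R := ℚ) d.flip) :=
    LinearMap.dualMap_surjective_of_injective hinj
  intro φ
  obtain ⟨ψ, hψ⟩ := h1 φ
  obtain ⟨D, hD⟩ := (Module.bijective_dual_eval ℚ P).2 ψ
  refine ⟨D, ?_⟩
  ext z
  have h2 := congrArg (fun f => f z) hψ
  simp only [Module.Dual.transpose_apply, LinearMap.comp_apply] at h2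
  rw [← h2, ← hD]
  simp

/-- **Double annihilators.** -/
lemma mem_of_double [Module.Finite ℚ P] (d : P →ₗ[ℚ] M →ₗ[ℚ] ℚ)
    (h : ∀ z, (∀ D, d D z = 0) → z = 0) (V : Submodule ℚ M) {z : M}
    (hz : ∀ D, (∀ v ∈ V, d D v = 0) → d D z = 0) : z ∈ V := by
  by_contra hzV
  obtain ⟨φ, hφ1, hφ2⟩ := Submodule.exists_dual_map_eq_bot_of_notMem hzV inferInstance
  obtain ⟨D, rfl⟩ := functional_surj d h φ
  refine hφ1 (hz D fun v hv => ?_)
  have : d D v ∈ Submodule.map (d D) V := ⟨v, hv, rfl⟩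
  rw [hφ2] at this
  exact (Submodule.mem_bot ℚ).1 this

/-- Coefficients in a larger field: if no `z ≠ 0` in `M` is orthogonal to `P` and a combination of linearly
independent elements of `M` is orthogonal to `P` then the coefficients are zero. -/
lemma coeff_eq_zero {K : Type} [Field K] [CharZero K] [Module.Finite ℚ P]
    (d : P →ₗ[ℚ] M →ₗ[ℚ] ℚ) (h : ∀ z, (∀ D, d D z = 0) → z = 0) {n : ℕ} {z : Fin n → M}
    (hz : LinearIndependent ℚ z) {c : Fin n → K} (hc : ∀ D, ∑ i, c i * (d D (z i) : K) = 0)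
    (j : Fin n) : c j = 0 := by
  obtain ⟨φ, hφ⟩ := LinearMap.exists_extend ((Basis.span hz).coord j)
  obtain ⟨D, hD⟩ := functional_surj d h φ
  have h1 : ∀ i, d D (z i) = if i = j then 1 else 0 := by
    intro i
    rw [hD]
    have e1 : φ (z i) = (Basis.span hz).coord j (Basis.span hz i) := by
      rw [← hφ, LinearMap.comp_apply, Submodule.subtype_apply, Basis.span_apply]
    rw [e1, Basis.coord_apply, Basis.repr_self, Finsupp.single_apply]
  have h2 := hc D
  rw [Finset.sum_eq_single j] at h2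
  · rw [h1, if_pos rfl, Rat.cast_one, mul_one] at h2
    exact h2
  · intro i _ hij
    rw [h1, if_neg hij, Rat.cast_zero, mul_zero]
  · intro hj
    exact absurd (Finset.mem_univ j) hj

end lin

/-! ### Threefolds -/

variable {ℓ : ℕ} [Fact ℓ.Prime] {C : Cycles ℓ}

lemma mem_num {X : C.T.V} {z : C.T.CH X} : z ∈ C.T.Num X ↔ ∀ D, C.T.deg X D z = 0 := Iff.rfl

lemma mem_numW {Y : C.W.W} {z : C.W.CH Y} : z ∈ C.W.Num Y ↔ ∀ D, C.W.deg Y D z = 0 := Iff.rfl

section threefold

variable (hC : C.IsKnown)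

include hC

lemma deg_lef (X : C.T.V) (H : C.T.Sec X) (D D' : C.T.Pic X) :
    C.T.deg X D (C.T.lef X H D') = C.T.degS X H (C.T.pull X H D) (C.T.pull X H D') := hC.basic.proj X H D _

lemma lef_mem_num {X : C.T.V} (H : C.T.Sec X) {D' : C.T.Pic X} (h : C.T.lef X H D' ∈ C.T.Num X) : D' = 0 := by
  have h1 : ∀ D, C.T.degS X H (C.T.pull X H D) (C.T.pull X H D') = 0 := fun D => by
    rw [← deg_lef hC]
    exact h D
  have h2 : C.T.pull X H D' = 0 := by
    by_contra h0
    have h3 : C.T.degS X H (C.T.pull X H D') (C.T.pull X H D') < 0 :=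
      hC.basic.hodge X H _ (h1 (C.T.cls X H)) h0
    rw [h1 D'] at h3
    exact lt_irrefl _ h3
  have h4 : Function.Injective (C.T.pull X H) := hC.basic.lefschetz X H
  exact h4 (by rw [h2, map_zero])

lemma lef_injective (X : C.T.V) (H : C.T.Sec X) : Function.Injective (C.T.lef X H) := by
  rw [← LinearMap.ker_eq_bot, LinearMap.ker_eq_bot']
  intro D hD
  refine lef_mem_num hC H ?_
  rw [hD]
  exact Submodule.zero_mem _

/-- Every one-cycle is, up to numerically trivial ones, the product of `H` and a divisor. -/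
lemma exists_lef (X : C.T.V) (H : C.T.Sec X) (z : C.T.CH X) : ∃ D, z - C.T.lef X H D ∈ C.T.Num X := by
  have := hC.basic.fin X
  let f : C.T.Pic X →ₗ[ℚ] (C.T.Pic X →ₗ[ℚ] ℚ) := ((C.T.deg X).flip).comp (C.T.lef X H)
  have hf : ∀ D D', f D' D = C.T.deg X D (C.T.lef X H D') := fun D D' => rfl
  have hinj : Function.Injective f := by
    rw [← LinearMap.ker_eq_bot, LinearMap.ker_eq_bot']
    intro D' hD'
    refine lef_mem_num hC H fun D => ?_
    rw [← hf, hD']
    rfl
  have hsurj : Function.Surjective f :=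
    (LinearMap.injective_iff_surjective_of_finrank_eq_finrank
      (Subspace.dual_finrank_eq (K := ℚ) (V := C.T.Pic X)).symm).1 hinj
  obtain ⟨D', hD'⟩ := hsurj ((C.T.deg X).flip z)
  refine ⟨D', fun D => ?_⟩
  rw [map_sub, ← hf, hD', LinearMap.flip_apply, sub_self]

/-- **For a good surface `H` the group `CH_1(X ∖ H) ⊗ ℚ` is the group of the numerically trivial
one-cycles on `X`.** -/
theorem good_iso (X : C.T.V) (H : C.T.Sec X) (hH : C.T.Good H) :
    Nonempty (C.O.CH (C.O.compl X H) ≃ₗ[ℚ] C.T.Num X) := by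
  let φ : C.T.Num X →ₗ[ℚ] C.O.CH (C.O.compl X H) := (C.O.restr X H).comp (C.T.Num X).subtype
  have hinj : Function.Injective φ := by
    rw [← LinearMap.ker_eq_bot, LinearMap.ker_eq_bot']
    rintro ⟨z, hz⟩ h0
    obtain ⟨y, hy⟩ := (hC.isOpen.exact X H z).1 h0
    obtain ⟨D, rfl⟩ := hH y
    have hD : C.T.lef X H D = z := hy
    have h1 : D = 0 := lef_mem_num hC H (by rw [hD]; exact hz)
    refine Subtype.ext ?_
    change z = 0
    rw [← hD, h1, map_zero]
  have hsurj : Function.Surjective φ := by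
    intro w
    obtain ⟨z, rfl⟩ := hC.isOpen.onto X H w
    obtain ⟨D, hD⟩ := exists_lef hC X H z
    refine ⟨⟨_, hD⟩, ?_⟩
    change C.O.restr X H (z - C.T.lef X H D) = C.O.restr X H z
    rw [map_sub, (hC.isOpen.exact X H (C.T.lef X H D)).2 ⟨_, rfl⟩, sub_zero]
  exact ⟨(LinearEquiv.ofBijective φ ⟨hinj, hsurj⟩).symm⟩

/-- **Good surfaces exist.** -/
theorem exists_good (X : C.T.V) : ∃ X', C.T.Ext X X' ∧ ∃ H : C.T.Sec X', C.T.Good H := by
  obtain ⟨X', hX', P, hP⟩ := hC.pencils.pencil X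
  obtain ⟨a1, a2, a3, a4⟩ := hP.action
  obtain ⟨b1, b2, b3, b4⟩ := hP.bilinear
  let B : P.E →ₗ[ℚ_[ℓ]] P.E →ₗ[ℚ_[ℓ]] ℚ_[ℓ] := LinearMap.mk₂ ℚ_[ℓ] P.ip b1 b2 b3 b4
  have hinv : ∀ σ x, P.act σ⁻¹ (P.act σ x) = x := fun σ x => by rw [← a4, inv_mul_cancel, a3]
  have hinv' : ∀ σ x, P.act σ (P.act σ⁻¹ x) = x := fun σ x => by rw [← a4, mul_inv_cancel, a3]
  let ρ : P.Γ →* (P.E ≃ₗ[ℚ_[ℓ]] P.E) :=
    { toFun := fun σ =>
        { toFun := P.act σ
          map_add' := a1 σ
          map_smul' := a2 σ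
          invFun := P.act σ⁻¹
          left_inv := hinv σ
          right_inv := hinv' σ }
      map_one' := by
        ext x
        exact a3 x
      map_mul' := fun σ τ => by
        ext x
        exact a4 σ τ x }
  obtain ⟨τ, -, hτ⟩ := exists_no_fixed B hP.symm hP.nondeg ρ hP.inv ⊤ hP.span
    (fun δ hδ => by
      obtain ⟨τ, hτ⟩ := hP.refl δ hδ
      exact ⟨τ, Subgroup.mem_top τ, hτ⟩) 1 two_ne_zero hP.norm
  rw [one_mul] at hτ
  obtain ⟨b, s, hs⟩ := hP.chebotarev _ (isOpen_no_fixed ρ hP.cont) ⟨τ, hτ⟩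
  refine ⟨P.ext b, hC.pencils.trans _ _ _ hX' (hP.isExt b), P.mem b, hP.lifting b fun x hx => ?_⟩
  have h1 : ρ (s * P.frob b * s⁻¹) (ρ s x) = ρ s x := by
    change P.act (s * P.frob b * s⁻¹) (P.act s x) = P.act s x
    rw [← a4, inv_mul_cancel_right, a4, hx]
  have h2 := hs _ h1
  exact (ρ s).map_eq_zero_iff.1 h2

lemma num_of_ext {X X' : C.T.V} (h : C.T.Ext X X') (h' : C.T.Num X' = ⊥) : C.T.Num X = ⊥ := by
  obtain ⟨u, hu, hu2⟩ := hC.pencils.transfer X X' h
  rw [Submodule.eq_bot_iff]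
  intro z hz
  have h1 := hu2 z hz
  rw [h', Submodule.mem_bot] at h1
  exact hu (by rw [h1, map_zero])

lemma num_of_surj {X : C.T.V} (H : C.T.Sec X) (h : Function.Surjective (C.T.lef X H)) : C.T.Num X = ⊥ := by
  rw [Submodule.eq_bot_iff]
  intro z hz
  obtain ⟨D, rfl⟩ := h z
  rw [lef_mem_num hC H hz, map_zero]

lemma bijective_of_num {X : C.T.V} (H : C.T.Sec X) (h : C.T.Num X = ⊥) : Function.Bijective (C.T.lef X H) := by
  refine ⟨lef_injective hC X H, fun z => ?_⟩
  obtain ⟨D, hD⟩ := exists_lef hC X H z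
  rw [h, Submodule.mem_bot, sub_eq_zero] at hD
  exact ⟨D, hD.symm⟩

omit hC in
lemma sep_of_num {X : C.T.V} (h : C.T.Num X = ⊥) : ∀ z, (∀ D, C.T.deg X D z = 0) → z = 0 := by
  intro z hz
  have : z ∈ C.T.Num X := hz
  rw [h] at this
  exact (Submodule.mem_bot ℚ).1 this

lemma affine_of_num (h : ∀ X, C.T.Num X = ⊥) (U : C.O.Aff) : Subsingleton (C.O.CH U) := by
  obtain ⟨X, r, hr, hD⟩ := hC.isOpen.compact U
  have := hC.basic.fin X
  have h1 : ∀ z, z ∈ LinearMap.ker r := by
    intro z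
    refine mem_of_double (C.T.deg X) (sep_of_num (h X)) _ fun D hD' => ?_
    rw [hD D hD', map_zero, LinearMap.zero_apply]
  refine subsingleton_of_forall_eq 0 fun w => ?_
  obtain ⟨z, rfl⟩ := hr w
  exact h1 z

lemma albKer_of_num (h : ∀ X, C.T.Num X = ⊥) (S : C.G.Srf) : C.G.albKer S = ⊥ := by
  obtain ⟨X, r, hr, hD⟩ := hC.global.model S
  have := hC.basic.fin X
  rw [Submodule.eq_bot_iff]
  intro w hw
  obtain ⟨z, rfl⟩ := hr w
  have h1 : z ∈ LinearMap.ker r :=
    mem_of_double (C.T.deg X) (sep_of_num (h X)) _ fun D hD' => hD D hD' z hw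
  exact h1

lemma affineSurface_of_num (h : ∀ X, C.T.Num X = ⊥) (S : C.G.ASrf) : Subsingleton (C.G.CHA S) := by
  obtain ⟨U, r, hr⟩ := hC.global.spread S
  have := affine_of_num hC h U
  exact hr.subsingleton

lemma clW_of_num (h : ∀ Y, C.W.Num Y = ⊥) (Y : C.W.W) : C.W.ClInjective Y := by
  have := hC.higher.fin Y
  intro n z hz
  rw [Fintype.linearIndependent_iff]
  intro c hc j
  refine coeff_eq_zero (C.W.deg Y) (fun z hz => ?_) hz (hC.higher.coh Y n z c hc) j
  have : z ∈ C.W.Num Y := hz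
  rw [h] at this
  exact (Submodule.mem_bot ℚ).1 this

lemma clA_iff (U : C.O.Aff) : C.O.QOne U ↔ Subsingleton (C.O.CH U) := by
  have := hC.isOpen.artin U
  constructor
  · intro h
    refine subsingleton_of_forall_eq 0 fun z => ?_
    by_contra hz
    have h1 : LinearIndependent ℚ (fun _ : Fin 1 => z) := linearIndependent_unique_iff.2 hz
    have h2 := h.1 1 _ h1
    exact h2.ne_zero 0 (Subsingleton.elim _ _)
  · intro h
    refine ⟨fun n z hz => ?_, ?_⟩
    · rcases Nat.eq_zero_or_pos n with rfl | hn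
      · exact linearIndependent_empty_type
      · exact absurd (Subsingleton.elim _ _) (hz.ne_zero ⟨0, hn⟩)
    · exact Subsingleton.elim _ _

lemma num_iff_numW : (∀ X, C.T.Num X = ⊥) ↔ ∀ Y, C.W.Num Y = ⊥ := by
  constructor
  · intro h Y
    rw [Submodule.eq_bot_iff]
    intro z hz
    obtain ⟨X, f, y, rfl, hy⟩ := hC.higher.moving Y z
    have h1 := hy hz
    rw [h, Submodule.mem_bot] at h1
    rw [h1, map_zero]
  · intro h X
    obtain ⟨Y, u, hu, hu2⟩ := hC.higher.three X
    rw [Submodule.eq_bot_iff]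
    intro z hz
    have h1 := hu2 z hz
    rw [h, Submodule.mem_bot] at h1
    exact hu (by rw [h1, map_zero])

/-- **The equivalences.** -/
theorem tfae : List.TFAE [
    ∀ U, C.O.QOne U,
    ∀ U, Subsingleton (C.O.CH U),
    ∀ X (H : C.T.Sec X), Subsingleton (C.O.CH (C.O.compl X H)),
    ∀ X (H : C.T.Sec X), C.T.Good H → Subsingleton (C.O.CH (C.O.compl X H)),
    ∀ X, C.T.Num X = ⊥,
    ∀ Y, C.W.Num Y = ⊥,
    ∀ X (H : C.T.Sec X), Function.Bijective (C.T.lef X H),
    ∀ X (H : C.T.Sec X), Function.Surjective (C.T.lef X H),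
    ∀ X, Module.rank ℚ (C.T.CH X) ≤ Module.rank ℚ (C.T.Pic X)] := by
  tfae_have 1 ↔ 2 := forall_congr' fun U => clA_iff hC U
  tfae_have 2 → 3 := fun h X H => h _
  tfae_have 3 → 4 := fun h X H _ => h X H
  tfae_have 4 → 5 := by
    intro h X
    obtain ⟨X', hX', H, hH⟩ := exists_good hC X
    refine num_of_ext hC hX' ?_
    obtain ⟨e⟩ := good_iso hC X' H hH
    have h1 := h X' H hH
    have h2 : Subsingleton (C.T.Num X') := e.symm.injective.subsingleton
    exact (Submodule.subsingleton_iff_eq_bot).1 h2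
  tfae_have 5 → 2 := affine_of_num hC
  tfae_have 5 ↔ 6 := num_iff_numW hC
  tfae_have 5 → 7 := fun h X H => bijective_of_num hC H (h X)
  tfae_have 7 → 8 := fun h X H => (h X H).2
  tfae_have 8 → 5 := by
    intro h X
    obtain ⟨X', hX', H, -⟩ := exists_good hC X
    exact num_of_ext hC hX' (num_of_surj hC H (h X' H))
  tfae_have 5 → 9 := by
    intro h X
    have := hC.basic.fin X
    have h1 := finite_of_left_sep (C.T.deg X) (sep_of_num (h X))
    have hinj : Function.Injective (C.T.deg X).flip := by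
      rw [← LinearMap.ker_eq_bot, LinearMap.ker_eq_bot']
      intro z hz
      refine sep_of_num (h X) z fun D => ?_
      have := congrArg (fun f => f D) hz
      simpa using this
    have h2 := LinearMap.finrank_le_finrank_of_injective hinj
    rw [Subspace.dual_finrank_eq] at h2
    rw [← Module.finrank_eq_rank, ← Module.finrank_eq_rank]
    exact_mod_cast h2
  tfae_have 9 → 5 := by
    intro h X
    obtain ⟨X', hX', H, -⟩ := exists_good hC X
    refine num_of_ext hC hX' (num_of_surj hC H ?_)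
    have := hC.basic.fin X'
    have h1 := h X'
    have h2 : Module.Finite ℚ (C.T.CH X') := by
      refine Module.rank_lt_aleph0_iff.1 ?_
      exact lt_of_le_of_lt h1 (Module.rank_lt_aleph0 ℚ _)
    rw [← Module.finrank_eq_rank, ← Module.finrank_eq_rank] at h1
    have h3 : finrank ℚ (C.T.CH X') ≤ finrank ℚ (C.T.Pic X') := by exact_mod_cast h1
    have h4 := LinearMap.finrank_le_finrank_of_injective (lef_injective hC X' H)
    exact (LinearMap.injective_iff_surjective_of_finrank_eq_finrank (le_antisymm h4 h3)).1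
      (lef_injective hC X' H)
  tfae_finish

end threefold

end Pool.Agent.KS6_75.AT
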